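import Mathlib
import Pool.Agent.Helper948.Erode.Survive
import Pool.Agent.Helper948.Erode.Chain

set_option autoImplicit false

namespace Pool.Agent.Results.MP_94d996_lc.EroderUndecidable

open Pool.Agent.Helper948.Erode

/-! ## Definitions used in the statement -/

/-- A standard deterministic system: dimension `d`, memory `m`, state set `{0, …, k}`,
`n` neighbour vectors `v i = (space part, time part)` in `ℤ^d × {-m, …, -1}`, and a transition
function. -/
structure DetSystem where
  d : ℕ
  m : ℕ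
  k : ℕ
  n : ℕ
  hd : 1 ≤ d
  hm : 1 ≤ m
  hk : 1 ≤ k
  hn : 1 ≤ n
  v : Fin n → (Fin d → ℤ) × ℤ
  hv : ∀ i, -(m : ℤ) ≤ (v i).2 ∧ (v i).2 ≤ -1
  tr : (Fin n → Fin (k + 1)) → Fin (k + 1)

namespace DetSystem

variable (S : DetSystem)

/-- The system is monotonic: the transition function is non-decreasing in each argument. -/
def Monotonic : Prop := Monotone S.tr

/-- The volume `V = ℤ^d × {-m, -m+1, …}`. -/
def Vol : Set ((Fin S.d → ℤ) × ℤ) := {w | -(S.m : ℤ) ≤ w.2}

/-- The initial part `I = ℤ^d × {-m, …, -1}`. -/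
def Init : Set ((Fin S.d → ℤ) × ℤ) := {w | -(S.m : ℤ) ≤ w.2 ∧ w.2 ≤ -1}

/-- The trajectory with initial configuration `s`: it equals `s` at negative times and
satisfies `x_w = tr (x_{w + v_1}, …, x_{w + v_n})` at times `≥ 0`. -/
def TR (s : (Fin S.d → ℤ) × ℤ → Fin (S.k + 1)) (w : (Fin S.d → ℤ) × ℤ) : Fin (S.k + 1) :=
  if w.2 < 0 then s w else S.tr (fun i => TR s (w + S.v i))
termination_by (w.2 + S.m).toNat
decreasing_by
  have h1 := S.hv i
  have h2 := S.hm
  simp only [Prod.snd_add]
  omega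

/-- The initial condition 'all zeroes' is an attractor (the system is an eroder): the trajectory
of every initial island is an island. -/
def Eroder : Prop :=
  ∀ s : (Fin S.d → ℤ) × ℤ → Fin (S.k + 1),
    {w | w ∈ S.Init ∧ s w ≠ 0}.Finite → {w | w ∈ S.Vol ∧ S.TR s w ≠ 0}.Finite

/-- The finite data of a system, as an object which an algorithm can read: `d`, `m`, `k`, the list
of the neighbour vectors (integer coordinates of the space part, time part), and the table of the
values of the transition function at all the `(k+1)^n` argument tuples, in the order of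
`finFunctionFinEquiv`. -/
def code : ℕ × ℕ × ℕ × List (List ℤ × ℤ) × List ℕ :=
  (S.d, S.m, S.k, List.ofFn (fun i => (List.ofFn (S.v i).1, (S.v i).2)),
    List.ofFn (fun j : Fin ((S.k + 1) ^ S.n) => (S.tr (finFunctionFinEquiv.symm j) : ℕ)))

/-- Sanity check: the code determines the system. -/
theorem code_injective : Function.Injective code := by
  rintro ⟨d, m, k, n, hd, hm, hk, hn, v, hv, tr⟩ ⟨d', m', k', n', hd', hm', hk', hn', v', hv', tr'⟩ h
  simp only [code, Prod.mk.injEq] at h
  obtain ⟨rfl, rfl, rfl, h1, h2⟩ := h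
  have h3 : n = n' := by simpa using congrArg List.length h1
  subst h3
  have h4 := List.ofFn_injective h1
  have h5 := List.ofFn_injective h2
  have h6 : v = v' := by
    funext i
    have h7 := congrFun h4 i
    simp only [Prod.mk.injEq] at h7
    exact Prod.ext (List.ofFn_injective h7.1) h7.2
  have h8 : tr = tr' := by
    funext a
    have h9 := congrFun h5 (finFunctionFinEquiv a)
    simp only [Equiv.symm_apply_apply] at h9
    exact Fin.ext h9
  subst h6 h8
  rfl

end DetSystem

/-! ## Systems from multi-species systems -/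

section mk

variable {Q D I : Type} [Fintype Q] [Fintype D] [Fintype I]

/-- index type of the neighbours -/
abbrev Ob (Q D : Type) := (Q × Bool) × D × (Q × Bool)

variable (cl : Q → Set (D × Q) → Prop) (disp : D → I → ℤ)

open Classical in
/-- value of the transition function -/
noncomputable def trv (a : Ob Q D → ℕ) : ℕ :=
  Finset.univ.sup (fun q : Q × Bool =>
    if (∃ C, cl q.1 C ∧ ∀ o ∈ C, ∀ s, lev (o.2, s) ≤ a (q, o.1, (o.2, s))) then lev q else 0)

theorem trv_le (a : Ob Q D → ℕ) : trv cl a ≤ 2 * Fintype.card Q := by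
  unfold trv
  apply Finset.sup_le
  intro q _
  split_ifs
  · exact lev_le q
  · omega

theorem le_trv (a : Ob Q D → ℕ) (q : Q × Bool) : lev q ≤ trv cl a ↔
    ∃ q' : Q × Bool, lev q ≤ lev q' ∧ ∃ C, cl q'.1 C ∧
      ∀ o ∈ C, ∀ s, lev (o.2, s) ≤ a (q', o.1, (o.2, s)) := by
  classical
  have hq := lev_pos q
  unfold trv
  rw [Finset.le_sup_iff (by
    change 0 < lev q
    omega)]
  constructor
  · rintro ⟨q', _, h⟩
    refine ⟨q', ?_⟩
    split_ifs at h with h1
    · exact ⟨h, h1⟩
    · omega
  · rintro ⟨q', h, h1⟩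
    refine ⟨q', Finset.mem_univ _, ?_⟩
    rw [if_pos h1]
    exact h

theorem trv_mono {a b : Ob Q D → ℕ} (h : ∀ o, a o ≤ b o) : trv cl a ≤ trv cl b := by
  classical
  unfold trv
  apply Finset.sup_mono_fun
  intro q _
  split_ifs with h1 h2
  · exact le_rfl
  · exfalso
    obtain ⟨C, hC, h3⟩ := h1
    exact h2 ⟨C, hC, fun o ho s => le_trans (h3 o ho s) (h _)⟩
  · omega
  · exact le_rfl

/-- the vector of a neighbour -/
noncomputable def vc (o : Ob Q D) : I ⊕ Bool → ℤ
  | .inl i => disp o.2.1 i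
  | .inr false => p1 o.1 - p1 o.2.2
  | .inr true => p2 o.1 - p2 o.2.2

variable {P : Type} [Fintype P] [Nonempty P] [Nonempty Q] (π : Ob Q D → P) (wt : P → I ⊕ Bool → ℤ)

/-- the chain system of a multi-species system; `P` indexes the neighbours, `wt` gives the
neighbour vectors, and `π` tells which neighbour is used for which move -/
noncomputable def mkSys : DetSystem where
  d := Fintype.card (I ⊕ Bool)
  m := 1
  k := 2 * Fintype.card Q
  n := Fintype.card P
  hd := Fintype.card_pos
  hm := le_rfl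
  hk := by
    have := Fintype.card_pos (α := Q)
    omega
  hn := Fintype.card_pos
  v i := (fun j => wt ((Fintype.equivFin P).symm i) ((Fintype.equivFin (I ⊕ Bool)).symm j), -1)
  hv i := by simp
  tr a := ⟨trv cl (fun o => (a (Fintype.equivFin P (π o)) : ℕ)),
    Nat.lt_succ_of_le (trv_le cl _)⟩

theorem mkSys_tr (a : Fin (mkSys cl π wt).n → Fin ((mkSys cl π wt).k + 1)) :
    ((mkSys cl π wt).tr a : ℕ) =
      trv cl (fun o => (a (Fintype.equivFin P (π o)) : ℕ)) := rfl

theorem mkSys_mono : (mkSys cl π wt).Monotonic := by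
  intro a b h
  rw [Fin.le_def, mkSys_tr, mkSys_tr]
  exact trv_mono cl (fun o => h _)

/-- a position of the chain system -/
noncomputable def pos (x : I → ℤ) (a b : ℤ) : Fin (Fintype.card (I ⊕ Bool)) → ℤ :=
  fun j => Sum.elim x (fun c : Bool => if c then b else a) ((Fintype.equivFin (I ⊕ Bool)).symm j)

theorem pos_surj (p : Fin (Fintype.card (I ⊕ Bool)) → ℤ) :
    pos (fun i => p (Fintype.equivFin (I ⊕ Bool) (.inl i)))
      (p (Fintype.equivFin (I ⊕ Bool) (.inr false)))
      (p (Fintype.equivFin (I ⊕ Bool) (.inr true))) = p := by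
  funext j
  obtain ⟨i, rfl⟩ := (Fintype.equivFin (I ⊕ Bool)).surjective j
  unfold pos
  rw [Equiv.symm_apply_apply]
  rcases i with i | c
  · rfl
  · cases c <;> rfl

theorem pos_inj {x x' : I → ℤ} {a b a' b' : ℤ} (h : pos x a b = pos x' a' b') :
    x = x' ∧ a = a' ∧ b = b' := by
  have key : ∀ i, Sum.elim x (fun c : Bool => if c then b else a) i =
      Sum.elim x' (fun c : Bool => if c then b' else a') i := by
    intro i
    have := congrFun h (Fintype.equivFin (I ⊕ Bool) i)
    unfold pos at this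
    rwa [Equiv.symm_apply_apply] at this
  refine ⟨funext fun i => key (.inl i), ?_, ?_⟩
  · simpa using key (.inr false)
  · simpa using key (.inr true)

theorem pos_add (x : I → ℤ) (a b : ℤ) (o : Ob Q D) :
    (pos x a b + fun j => vc disp o ((Fintype.equivFin (I ⊕ Bool)).symm j)) =
      pos (x + disp o.2.1) (a + p1 o.1 - p1 o.2.2) (b + p2 o.1 - p2 o.2.2) := by
  funext j
  unfold pos
  rw [Pi.add_apply]
  generalize (Fintype.equivFin (I ⊕ Bool)).symm j = i
  rcases i with i | c
  · rfl
  · cases c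
    · simp [vc]; ring
    · simp [vc]; ring

/-- the sheets of a trajectory -/
def Sh (s : (Fin (mkSys cl π wt).d → ℤ) × ℤ → Fin ((mkSys cl π wt).k + 1)) (t : ℕ) (a b : ℤ)
    (x : I → ℤ) (q : Q × Bool) : Prop :=
  lev q ≤ ((mkSys cl π wt).TR s (pos x (a - p1 q) (b - p2 q), (t : ℤ) - 1) : ℕ)

theorem Sh_rec (hw : ∀ o, wt (π o) = vc disp o) (s : (Fin (mkSys cl π wt).d → ℤ) × ℤ → Fin ((mkSys cl π wt).k + 1)) (t : ℕ)
    (a b : ℤ) (x : I → ℤ) (q : Q × Bool) : Sh cl π wt s (t + 1) a b x q ↔
      ∃ q' : Q × Bool, lev q ≤ lev q' ∧ ∃ C, cl q'.1 C ∧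
    ∀ o ∈ C, ∀ c, Sh cl π wt s t (a + p1 q' - p1 q) (b + p2 q' - p2 q) (x + disp o.1) (o.2, c) := by
  unfold Sh
  rw [DetSystem.TR, if_neg (by push_cast; omega)]
  rw [mkSys_tr, le_trv]
  have key : ∀ (q' : Q × Bool) (d : D) (q3 : Q × Bool),
      ((mkSys cl π wt).TR s (((pos x (a - p1 q) (b - p2 q), ((t + 1 : ℕ) : ℤ) - 1) :
        (Fin (mkSys cl π wt).d → ℤ) × ℤ) +
        (mkSys cl π wt).v (Fintype.equivFin P (π (q', d, q3))))) =
      ((mkSys cl π wt).TR s (pos (x + disp d) (a + p1 q' - p1 q - p1 q3)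
        (b + p2 q' - p2 q - p2 q3), (t : ℤ) - 1)) := by
    intro q' d q3
    congr 1
    apply Prod.ext
    · change (pos x (a - p1 q) (b - p2 q) + fun j => wt
        ((Fintype.equivFin P).symm (Fintype.equivFin P (π (q', d, q3))))
          ((Fintype.equivFin (I ⊕ Bool)).symm j)) = _
      rw [Equiv.symm_apply_apply, hw, pos_add]
      simp only
      congr 1 <;> ring
    · change ((t + 1 : ℕ) : ℤ) - 1 + -1 = (t : ℤ) - 1
      push_cast; ring
  constructor
  · rintro ⟨q', h1, C, hC, h2⟩
    refine ⟨q', h1, C, hC, fun o ho c => ?_⟩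
    have := h2 o ho c
    rw [key] at this
    exact this
  · rintro ⟨q', h1, C, hC, h2⟩
    refine ⟨q', h1, C, hC, fun o ho c => ?_⟩
    rw [key]
    exact h2 o ho c

theorem eroder_of_dies (hw : ∀ o, wt (π o) = vc disp o) (hne : ∀ q C, cl q C → C.Nonempty)
    (hdie : ∀ J : Q → (I → ℤ) → Prop, {u : Q × (I → ℤ) | J u.1 u.2}.Finite → ∃ T : ℕ,
      ∀ t, T ≤ t → ∀ q x, ¬ Alive cl disp J t q x) : (mkSys cl π wt).Eroder := by
  intro s hs
  have hB : RecF cl disp (Sh cl π wt s) := fun t a b x q h => (Sh_rec cl disp π wt hw s t a b x q).1 h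
  have h0 : {u : ℤ × ℤ × (I → ℤ) × (Q × Bool) |
      Sh cl π wt s 0 u.1 u.2.1 u.2.2.1 u.2.2.2}.Finite := by
    let F : ℤ × ℤ × (I → ℤ) × (Q × Bool) →
      ((Fin (mkSys cl π wt).d → ℤ) × ℤ) × (Q × Bool) := fun u =>
        ((pos u.2.2.1 (u.1 - p1 u.2.2.2) (u.2.1 - p2 u.2.2.2), -1), u.2.2.2)
    have hF : Function.Injective F := by
      rintro ⟨a, b, x, q⟩ ⟨a', b', x', q'⟩ h
      have h0 : q = q' := congrArg Prod.snd h
      subst h0
      have h1 : pos x (a - p1 q) (b - p2 q) = pos x' (a' - p1 q) (b' - p2 q) :=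
        congrArg (fun u => u.1.1) h
      obtain ⟨rfl, h2, h3⟩ := pos_inj h1
      have h2' : a = a' := by linarith
      have h3' : b = b' := by linarith
      rw [h2', h3']
    refine Set.Finite.subset (Set.Finite.preimage hF.injOn
      (hs.prod (Set.finite_univ (α := Q × Bool)))) ?_
    rintro ⟨a, b, x, q⟩ h
    refine ⟨⟨⟨?_, ?_⟩, ?_⟩, Set.mem_univ _⟩
    · change -((1 : ℕ) : ℤ) ≤ -1
      norm_num
    · change (-1 : ℤ) ≤ -1
      norm_num
    · intro h1
      have h2 : lev q ≤ ((mkSys cl π wt).TR s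
        (pos x (a - p1 q) (b - p2 q), ((0 : ℕ) : ℤ) - 1) : ℕ) := h
      rw [DetSystem.TR, if_pos (by norm_num)] at h2
      have h3 : s (pos x (a - p1 q) (b - p2 q), -1) = 0 := h1
      have e : (((0 : ℕ) : ℤ) - 1) = -1 := by norm_num
      rw [e, h3] at h2
      have := lev_pos q
      simp at h2
      omega
  obtain ⟨T, hT⟩ := sheets_die hne hB h0 hdie
  have hfin := sheets_finite hne hB h0
  have hcov : ∀ (p : Fin (mkSys cl π wt).d → ℤ) (t : ℕ), (mkSys cl π wt).TR s (p, (t : ℤ) - 1) ≠ 0 →
      ∃ a b x q, Sh cl π wt s t a b x q ∧ p = pos x (a - p1 q) (b - p2 q) := by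
    intro p t h
    have h1 : 1 ≤ ((mkSys cl π wt).TR s (p, (t : ℤ) - 1) : ℕ) := by
      by_contra hc
      apply h
      apply Fin.ext
      simp only [Fin.val_zero]
      omega
    have h2 : ((mkSys cl π wt).TR s (p, (t : ℤ) - 1) : ℕ) ≤ 2 * Fintype.card Q :=
      Nat.lt_succ_iff.1 ((mkSys cl π wt).TR s (p, (t : ℤ) - 1)).2
    obtain ⟨q, hq⟩ := lev_surj (Q := Q) _ h1 h2
    have hp := pos_surj p
    refine ⟨p (Fintype.equivFin (I ⊕ Bool) (.inr false)) + p1 q,
      p (Fintype.equivFin (I ⊕ Bool) (.inr true)) + p2 q,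
      fun i => p (Fintype.equivFin (I ⊕ Bool) (.inl i)), q, ?_, ?_⟩
    · unfold Sh
      rw [add_sub_cancel_right, add_sub_cancel_right, hp, hq]
    · rw [add_sub_cancel_right, add_sub_cancel_right, hp]
  have hunion : {w | w ∈ (mkSys cl π wt).Vol ∧ (mkSys cl π wt).TR s w ≠ 0} ⊆
      ⋃ t ∈ Finset.range T, (fun u : ℤ × ℤ × (I → ℤ) × (Q × Bool) =>
        ((pos u.2.2.1 (u.1 - p1 u.2.2.2) (u.2.1 - p2 u.2.2.2), (t : ℤ) - 1) :
          (Fin (mkSys cl π wt).d → ℤ) × ℤ)) ''
        {u | Sh cl π wt s t u.1 u.2.1 u.2.2.1 u.2.2.2} := by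
    rintro ⟨p, z⟩ ⟨hz, hne0⟩
    have hz' : -((1 : ℕ) : ℤ) ≤ z := hz
    obtain ⟨t, rfl⟩ : ∃ t : ℕ, z = (t : ℤ) - 1 := ⟨(z + 1).toNat, by push_cast at hz'; omega⟩
    obtain ⟨a, b, x, q, h1, h2⟩ := hcov p t hne0
    have htT : t < T := by
      by_contra hc
      exact hT t (by omega) a b x q h1
    simp only [Set.mem_iUnion]
    refine ⟨t, Finset.mem_range.2 htT, (a, b, x, q), h1, ?_⟩
    simp only [h2]
  refine Set.Finite.subset ?_ hunion
  refine Set.Finite.biUnion (Finset.finite_toSet _) ?_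
  intro t _
  exact (hfin t).image _

theorem not_eroder_of_survives (hw : ∀ o, wt (π o) = vc disp o) {J : Q → (I → ℤ) → Prop}
    (hJ : {u : Q × (I → ℤ) | J u.1 u.2}.Finite)
    (hlive : ∀ T : ℕ, ∃ t, T ≤ t ∧ ∃ q x, Alive cl disp J t q x) :
    ¬ (mkSys cl π wt).Eroder := by
  classical
  intro hE
  -- the initial island
  let W : Set ((Fin (mkSys cl π wt).d → ℤ) × ℤ) := (fun u : (Q × (I → ℤ)) × Bool =>
    ((pos u.1.2 (0 - p1 (u.1.1, u.2)) (0 - p2 (u.1.1, u.2)), -1) :
      (Fin (mkSys cl π wt).d → ℤ) × ℤ)) '' ({u : Q × (I → ℤ) | J u.1 u.2} ×ˢ Set.univ)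
  have hW : W.Finite := (hJ.prod Set.finite_univ).image _
  let s : (Fin (mkSys cl π wt).d → ℤ) × ℤ → Fin ((mkSys cl π wt).k + 1) :=
    fun w => if w ∈ W then Fin.last _ else 0
  have hs : {w | w ∈ (mkSys cl π wt).Init ∧ s w ≠ 0}.Finite := by
    refine hW.subset ?_
    rintro w ⟨_, h⟩
    by_contra hc
    exact h (if_neg hc)
  have hfin := hE s hs
  have h0 : ∀ q x c, J q x → Sh cl π wt s 0 0 0 x (q, c) := by
    intro q x c h
    unfold Sh
    rw [DetSystem.TR, if_pos (by norm_num)]
    have hmem : ((pos x (0 - p1 (q, c)) (0 - p2 (q, c)), ((0 : ℕ) : ℤ) - 1) :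
        (Fin (mkSys cl π wt).d → ℤ) × ℤ) ∈ W := by
      refine ⟨((q, x), c), ⟨h, Set.mem_univ _⟩, ?_⟩
      norm_num
    simp only [s]
    rw [if_pos hmem]
    exact lev_le (q, c)
  have hal := sheet_alive (cl := cl) (disp := disp) (B := Sh cl π wt s) (by
    rintro t a b x q ⟨C, hC, h⟩
    rw [Sh_rec cl disp π wt hw]
    refine ⟨q, le_rfl, C, hC, fun o ho c => ?_⟩
    have e1 : a + p1 q - p1 q = a := by ring
    have e2 : b + p2 q - p2 q = b := by ring
    rw [e1, e2]
    exact h o ho c) h0
  obtain ⟨b, hb⟩ := (hfin.image Prod.snd).bddAbove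
  obtain ⟨t, ht, q, x, hqx⟩ := hlive (b + 2).toNat
  have h1 := hal t q x true hqx
  have h2 : ((t : ℤ) - 1) ≤ b := by
    refine hb ⟨(pos x (0 - p1 (q, true)) (0 - p2 (q, true)), (t : ℤ) - 1), ⟨?_, ?_⟩, rfl⟩
    · change -((1 : ℕ) : ℤ) ≤ (t : ℤ) - 1
      push_cast; omega
    · intro h3
      unfold Sh at h1
      rw [h3] at h1
      have := lev_pos (q, true)
      simp at h1
      omega
  omega

end mk

/-! ## Computability of the instance map -/

theorem primrec_cast : Primrec (fun n : ℕ => (n : ℤ)) := by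
  rw [← Primrec.encode_iff]
  refine Primrec.of_eq (f := fun n : ℕ => 2 * n) ?_ ?_
  · exact Primrec.nat_mul.comp (Primrec.const 2) Primrec.id
  · intro n; rfl

open Classical in
theorem comp_list (a b : ℕ) (G : ℕ → Fin a → Fin b → ℤ)
    (hG : ∀ i j, (∀ n : ℕ, G n i j = (n : ℤ)) ∨ (∀ n : ℕ, G n i j = G 0 i j)) :
    Computable (fun n => List.ofFn (fun i => (List.ofFn (G n i), (-1 : ℤ)))) := by
  let tm : Fin a → Fin b → Option ℤ := fun i j =>
    if ∀ n : ℕ, G n i j = (n : ℤ) then none else some (G 0 i j)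
  have htm : ∀ (n : ℕ) i j, (tm i j).getD (n : ℤ) = G n i j := by
    intro n i j
    simp only [tm]
    split_ifs with h
    · rw [h n]; rfl
    · rcases hG i j with h1 | h1
      · exact absurd h1 h
      · rw [h1 n]; rfl
  have h1 : Primrec₂ (fun (p : ℕ × List (Option ℤ)) (o : Option ℤ) => o.getD (p.1 : ℤ)) :=
    Primrec.option_getD.comp Primrec.snd
      (primrec_cast.comp (Primrec.fst.comp Primrec.fst))
  have h2 : Primrec₂ (fun (n : ℕ) (l : List (Option ℤ)) =>
      (l.map (fun o => o.getD (n : ℤ)), (-1 : ℤ))) :=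
    Primrec.pair (Primrec.list_map Primrec.snd h1) (Primrec.const _)
  have h3 : Primrec (fun n : ℕ => (List.ofFn (fun i => List.ofFn (tm i))).map
      (fun l => (l.map (fun o => o.getD (n : ℤ)), (-1 : ℤ)))) :=
    Primrec.list_map (Primrec.const _) h2
  refine h3.to_comp.of_eq ?_
  intro n
  rw [List.map_ofFn]
  congr 1
  funext i
  simp only [Function.comp_apply, List.map_ofFn]
  congr 2
  funext j
  exact htm n i j

/-- The table of a chain system does not depend on the vectors. -/
theorem mkSys_code {Q D I P : Type} [Fintype Q] [Fintype D] [Fintype I] [Nonempty Q]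
    [Fintype P] [Nonempty P] (cl : Q → Set (D × Q) → Prop) (π : Ob Q D → P)
    (wt : P → I ⊕ Bool → ℤ) :
    (mkSys cl π wt).code = (Fintype.card (I ⊕ Bool), 1, 2 * Fintype.card Q,
      List.ofFn (fun i : Fin (Fintype.card P) =>
        (List.ofFn (fun j => wt ((Fintype.equivFin P).symm i)
          ((Fintype.equivFin (I ⊕ Bool)).symm j)), (-1 : ℤ))),
      List.ofFn (fun j : Fin ((2 * Fintype.card Q + 1) ^ (Fintype.card P)) =>
        (trv cl (fun o => ((finFunctionFinEquiv.symm j : Fin (Fintype.card P) →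
          Fin (2 * Fintype.card Q + 1)) (Fintype.equivFin P (π o)) : ℕ))))) := rfl

/-! ## The systems of the reduction -/

theorem cl_congr {S J T : Type} {N N' : Net S J T} (s0 : S) (h1 : N.src = N'.src)
    (h2 : N.dst = N'.dst) (h3 : N.z = N'.z) (q : Sp S J) (C : Set (Ds J T × Sp S J))
    (h : Cl N s0 q C) : Cl N' s0 q C := by
  cases h with
  | go c => exact Cl.go c
  | ab c => exact Cl.ab c
  | mv c t =>
    rw [h1, h2, h3]
    exact Cl.mv c t
  | aq c s => exact Cl.aq c s
  | dec c m f j h => exact Cl.dec c m f j h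
  | done c f => exact Cl.done c f
  | donem c f => exact Cl.donem c f
  | w c m f => exact Cl.w c m f

section red

variable {Q : Type} (M : Sys Q Bool) (q0 : Q)

/-- states of the net -/
abbrev St : Type := Option (RS M) × Bool × Option Bool
/-- registers of the net -/
abbrev Rg : Type := (Bool × Bool) ⊕ Bool
/-- transitions of the net -/
abbrev Tn : Type := RS M × Bool × Bool × Fin 3

/-- the net with input `n` -/
def net (n : ℕ) : Net (St M) Rg (Tn M) := scn (dm M q0 n)

/-- initial state of the net -/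
def s0 : St M := (some .init, false, none)
/-- the scale register -/
def kp : Rg := Sum.inr false

theorem cl_net (n : ℕ) : Cl (net M q0 n) (s0 M) = Cl (net M q0 0) (s0 M) := by
  have h1 : (net M q0 n).src = (net M q0 0).src := rfl
  have h2 : (net M q0 n).dst = (net M q0 0).dst := rfl
  have h3 : (net M q0 n).z = (net M q0 0).z := rfl
  funext q C
  apply propext
  exact ⟨cl_congr _ h1 h2 h3 q C, cl_congr _ h1.symm h2.symm h3.symm q C⟩

theorem vec_dep (p : RS M) (b : Bool) (j : Bool × Bool) :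
    (∀ n : ℕ, (dm M q0 n).vec p b j = n) ∨ (∀ n : ℕ, (dm M q0 n).vec p b j =
      (dm M q0 0).vec p b j) := by
  obtain ⟨j1, j2⟩ := j
  cases p with
  | init =>
    cases b
    · cases j1
      · cases j2
        · right; intro n; rfl
        · left; intro n; rfl
      · cases j2 <;> (right; intro n; rfl)
    · right; intro n; rfl
  | d1 q s => right; intro n; cases b <;> rfl
  | d2 q r s => right; intro n; cases b <;> rfl
  | e1 q r s => right; intro n; cases b <;> rfl
  | e2 q r s => right; intro n; cases b <;> rfl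

theorem disp_dep (d : Ds Rg (Tn M)) (i : Option (Bool × Rg)) :
    (∀ n : ℕ, disp (net M q0 n) kp d i = n) ∨
      (∀ n : ℕ, disp (net M q0 n) kp d i = disp (net M q0 0) kp d i) := by
  cases d with
  | z => right; intro n; rfl
  | inc c => right; intro n; rfl
  | dec c j => right; intro n; rfl
  | e s => right; intro n; rfl
  | mv c t =>
    rcases i with _ | ⟨c', j⟩
    · right; intro n; rfl
    · by_cases hc : c' = c
      · subst hc
        have e : ∀ n, disp (net M q0 n) kp (.mv c' t) (some (c', j)) = (net M q0 n).v t j := by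
          intro n
          simp [disp]
        simp only [e]
        obtain ⟨p, b, z, k⟩ := t
        fin_cases k
        · right; intro n; rfl
        · rcases j with j | b'
          · exact vec_dep M q0 p z j
          · right; intro n; rfl
        · right; intro n; rfl
      · right
        intro n
        simp [disp, hc]

variable [Finite Q]

noncomputable instance : Fintype (Sp (St M) Rg) := Fintype.ofFinite _
noncomputable instance : Fintype (Ds Rg (Tn M)) := Fintype.ofFinite _
instance : Nonempty (Sp (St M) Rg) := ⟨.P true⟩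

/-- moves of the game -/
abbrev Mv : Type := Ob (Sp (St M) Rg) (Ds Rg (Tn M))

instance : Nonempty (Mv M) := ⟨((.P true, true), .z, (.P true, true))⟩

theorem vc_dep (o : Mv M) (i : Option (Bool × Rg) ⊕ Bool) :
    (∀ n : ℕ, vc (disp (net M q0 n) kp) o i = n) ∨
      (∀ n : ℕ, vc (disp (net M q0 n) kp) o i = vc (disp (net M q0 0) kp) o i) := by
  rcases i with i | c
  · exact disp_dep M q0 o.2.1 i
  · right
    intro n
    cases c <;> rfl

open Classical in
/-- the template of the vector of a move: `none` stands for the input -/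
noncomputable def tmp (o : Mv M) (i : Option (Bool × Rg) ⊕ Bool) : Option ℤ :=
  if ∀ n : ℕ, vc (disp (net M q0 n) kp) o i = n then none
  else some (vc (disp (net M q0 0) kp) o i)

theorem tmp_getD (n : ℕ) (o : Mv M) (i : Option (Bool × Rg) ⊕ Bool) :
    (tmp M q0 o i).getD (n : ℤ) = vc (disp (net M q0 n) kp) o i := by
  unfold tmp
  split_ifs with h
  · rw [h n]; rfl
  · rcases vc_dep M q0 o i with h1 | h1
    · exact absurd h1 h
    · rw [h1 n]; rfl

/-- the set of the templates, which indexes the neighbours -/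
abbrev Tp : Type := Set.range (tmp M q0)

noncomputable instance : Fintype (Tp M q0) := Fintype.ofFinite _
instance : Nonempty (Tp M q0) := ⟨⟨_, ⟨Classical.arbitrary (Mv M), rfl⟩⟩⟩

/-- the neighbour used by a move -/
noncomputable def prm (o : Mv M) : Tp M q0 := ⟨tmp M q0 o, o, rfl⟩

/-- the vector of a neighbour -/
noncomputable def wt (n : ℕ) (p : Tp M q0) (i : Option (Bool × Rg) ⊕ Bool) : ℤ :=
  (p.1 i).getD (n : ℤ)

theorem wt_prm (n : ℕ) (o : Mv M) : wt M q0 n (prm M q0 o) = vc (disp (net M q0 n) kp) o :=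
  funext fun i => tmp_getD M q0 n o i

theorem exists_inj : ∃ n1 : ℕ, ∀ n, n1 ≤ n → Function.Injective (wt M q0 n) := by
  obtain ⟨B, hB⟩ := (Set.finite_range (fun u : Tp M q0 × (Option (Bool × Rg) ⊕ Bool) =>
    |(u.1.1 u.2).getD 0|)).bddAbove
  refine ⟨(B + 1).toNat, fun n hn p p' h => ?_⟩
  apply Subtype.ext
  funext i
  have h1 := congrFun h i
  have h2 := hB ⟨(p, i), rfl⟩
  have h3 := hB ⟨(p', i), rfl⟩
  simp only at h2 h3
  unfold wt at h1
  rcases e : p.1 i with _ | c <;> rcases e' : p'.1 i with _ | c'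
  · rfl
  · exfalso
    rw [e, e'] at h1
    rw [e'] at h3
    simp only [Option.getD_none, Option.getD_some] at h1 h3
    have := le_abs_self c'
    omega
  · exfalso
    rw [e, e'] at h1
    rw [e] at h2
    simp only [Option.getD_none, Option.getD_some] at h1 h2
    have := le_abs_self c
    omega
  · rw [e, e'] at h1
    simp only [Option.getD_some] at h1
    rw [h1]

/-- the instance with input `n` -/
noncomputable def inst (n : ℕ) : DetSystem :=
  mkSys (Cl (net M q0 n) (s0 M)) (prm M q0) (wt M q0 n)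

theorem inst_inj : ∃ n1 : ℕ, ∀ n, n1 ≤ n → Function.Injective (inst M q0 n).v := by
  obtain ⟨n1, h1⟩ := exists_inj M q0
  refine ⟨n1, fun n hn i i' h => ?_⟩
  apply (Fintype.equivFin (Tp M q0)).symm.injective
  apply h1 n hn
  have h2 : (fun j => wt M q0 n ((Fintype.equivFin (Tp M q0)).symm i)
      ((Fintype.equivFin (Option (Bool × Rg) ⊕ Bool)).symm j)) =
      (fun j => wt M q0 n ((Fintype.equivFin (Tp M q0)).symm i')
      ((Fintype.equivFin (Option (Bool × Rg) ⊕ Bool)).symm j)) := congrArg Prod.fst h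
  funext l
  have h3 := congrFun h2 (Fintype.equivFin (Option (Bool × Rg) ⊕ Bool) l)
  simp only [Equiv.symm_apply_apply] at h3
  exact h3

theorem code_computable : Computable (fun n => (inst M q0 n).code) := by
  have h1 : ∀ n, (inst M q0 n).code =
      (mkSys (Cl (net M q0 0) (s0 M)) (prm M q0) (wt M q0 n)).code := by
    intro n
    unfold inst
    rw [cl_net]
  simp only [h1, mkSys_code]
  refine Computable.pair (Computable.const _) (Computable.pair (Computable.const _)
    (Computable.pair (Computable.const _) (Computable.pair ?_ (Computable.const _))))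
  apply comp_list
  intro i j
  generalize (Fintype.equivFin (Tp M q0)).symm i = p
  generalize (Fintype.equivFin (Option (Bool × Rg) ⊕ Bool)).symm j = i'
  unfold wt
  rcases p.1 i' with _ | c
  · left; intro n; rfl
  · right; intro n; rfl

theorem inst_halts (n : ℕ) (h : (dm M q0 n).Halts (some .init, 0)) : (inst M q0 n).Eroder := by
  classical
  apply eroder_of_dies _ _ _ _ (wt_prm M q0 n)
  · intro q C hC
    exact hC.nonempty
  · intro J hJ
    -- a cube containing the island
    obtain ⟨R, hR0, hR⟩ : ∃ R : ℤ, 0 ≤ R ∧ ∀ q x, J q x → ∀ i, |x i| ≤ R := by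
      have h1 : ∀ i, ∃ R : ℤ, ∀ q x, J q x → |x i| ≤ R := by
        intro i
        obtain ⟨R, hR⟩ := (hJ.image (fun u => |u.2 i|)).bddAbove
        exact ⟨R, fun q x hx => hR ⟨(q, x), hx, rfl⟩⟩
      choose R hR using h1
      refine ⟨∑ i, |R i|, Finset.sum_nonneg fun i _ => abs_nonneg _, fun q x hx i => ?_⟩
      calc |x i| ≤ R i := hR i q x hx
        _ ≤ |R i| := le_abs_self _
        _ ≤ ∑ i, |R i| := Finset.single_le_sum (f := fun i => |R i|)
          (fun i _ => abs_nonneg _) (Finset.mem_univ i)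
    obtain ⟨V, hV⟩ : ∃ V : ℤ, ∀ p z j, |(dm M q0 n).vec p z j| ≤ V := by
      obtain ⟨V, hV⟩ := (Set.finite_range (fun w : RS M × Bool × (Bool × Bool) =>
        |(dm M q0 n).vec w.1 w.2.1 w.2.2|)).bddAbove
      exact ⟨V, fun p z j => hV ⟨(p, z, j), rfl⟩⟩
    obtain ⟨V', hV'⟩ : ∃ V' : ℕ, ∀ t, ∑ j, (net M q0 n).v t j ≤ V' := by
      obtain ⟨V', hV'⟩ := (Set.finite_range (fun t => ∑ j, (net M q0 n).v t j)).bddAbove
      refine ⟨V'.toNat, fun t => ?_⟩
      have := hV' ⟨t, rfl⟩
      simp only at this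
      omega
    obtain ⟨k, hk⟩ := h
    obtain ⟨K0, hK0⟩ := live_halt (dm M q0 n) hV R hR0 k (some .init) 0 (fun _ => le_rfl) hk R hR0
    obtain ⟨m, hm⟩ := hK0 (K0.toNat : ℤ) (by omega)
    obtain ⟨T, hT⟩ := game_dies (N := net M q0 n) (s0 := s0 M) (κ := kp) hR0 hV' K0.toNat m (by
      intro y hy
      refine hm false y ?_ ?_ ?_
      · intro j
        have := hy (.inl j)
        simpa [kp] using this
      · have := hy (.inr false)
        simpa [kp] using this
      · have := hy (.inr true)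
        simpa [kp] using this)
    refine ⟨T, fun t ht q x hal => hT t ht q x ?_⟩
    exact alive_mono (fun q x hx => hR q x hx) t q x hal

theorem inst_not_halts (n : ℕ) (h : ¬ (dm M q0 n).Halts (some .init, 0)) :
    ¬ (inst M q0 n).Eroder := by
  classical
  obtain ⟨V, hV0, hV⟩ : ∃ V : ℤ, 0 ≤ V ∧ ∀ t, ∑ j, (net M q0 n).v t j ≤ V := by
    obtain ⟨V', hV'⟩ := (Set.finite_range (fun t => ∑ j, (net M q0 n).v t j)).bddAbove
    refine ⟨max V' 0, le_max_right _ _, fun t => ?_⟩
    exact le_trans (hV' ⟨t, rfl⟩) (le_max_left _ _)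
  obtain ⟨V1, hV1, hV1'⟩ : ∃ V1 : ℤ, 1 ≤ V1 ∧ ∀ t j, |(net M q0 n).v t j| ≤ V1 := by
    obtain ⟨V', hV'⟩ := (Set.finite_range (fun w : Tn M × Rg =>
      |(net M q0 n).v w.1 w.2|)).bddAbove
    refine ⟨max V' 1, le_max_right _ _, fun t j => ?_⟩
    exact le_trans (hV' ⟨(t, j), rfl⟩) (le_max_left _ _)
  obtain ⟨R, hR⟩ := game_survives (N := net M q0 n) (s0 := s0 M) (κ := kp)
    (good_inv (dm M q0 n)) (by
      intro K hK
      refine ⟨K, 0, hK, fun _ => le_rfl, h, ?_, ?_, ?_⟩
      · intro j
        simp [kp]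
      · simp [kp]
      · simp [kp]) hV0 hV hV1 hV1'
  refine not_eroder_of_survives (J := fun _ x => ∀ i, |x i| ≤ R) _ _ _ _ (wt_prm M q0 n) ?_ ?_
  · refine Set.Finite.subset (Set.finite_univ.prod (Set.finite_Icc
      (fun _ : Option (Bool × Rg) => -R) (fun _ => R))) ?_
    rintro ⟨q, x⟩ hx
    refine ⟨Set.mem_univ _, ?_, ?_⟩
    · intro i
      exact (abs_le.1 (hx i)).1
    · intro i
      exact (abs_le.1 (hx i)).2
  · intro T
    exact ⟨T + 1, by omega, .P true, 0, hR (T + 1) (by omega)⟩

theorem inst_iff (n : ℕ) : (inst M q0 n).Eroder ↔ (dm M q0 n).Halts (some .init, 0) := by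
  constructor
  · intro h
    by_contra hc
    exact inst_not_halts M q0 n hc h
  · exact inst_halts M q0 n

end red

/-- **Undecidability of the eroder property of monotone cellular automata.** No algorithm decides,
given (the finite data of) a monotonic standard deterministic system, whether it is an eroder.
Moreover this already holds for systems with memory `m = 1` in dimension `15` with a fixed set
`{0, …, k}` of states and with distinct neighbour vectors. -/
theorem result :
    (¬ ∃ f : ℕ × ℕ × ℕ × List (List ℤ × ℤ) × List ℕ → Bool, Computable f ∧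
      ∀ S : DetSystem, S.Monotonic → (f S.code = true ↔ S.Eroder)) ∧
    ∃ k : ℕ, ¬ ∃ f : ℕ × ℕ × ℕ × List (List ℤ × ℤ) × List ℕ → Bool, Computable f ∧
      ∀ S : DetSystem, S.Monotonic → S.d = 15 → S.m = 1 → S.k = k → Function.Injective S.v →
        (f S.code = true ↔ S.Eroder) := by
  have key : ∃ k : ℕ, ¬ ∃ f : ℕ × ℕ × ℕ × List (List ℤ × ℤ) × List ℕ → Bool, Computable f ∧
      ∀ S : DetSystem, S.Monotonic → S.d = 15 → S.m = 1 → S.k = k → Function.Injective S.v →
        (f S.code = true ↔ S.Eroder) := by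
    obtain ⟨Q, hQ, M, q0, g, hg, hund⟩ := exists_dm
    refine ⟨2 * Fintype.card (Sp (St M) Rg), ?_⟩
    rintro ⟨f, hf, hfS⟩
    apply hund
    classical
    obtain ⟨n1, hn1⟩ := inst_inj M q0
    -- finitely many small inputs are treated by a table
    let tab : List Bool := List.ofFn (fun i : Fin n1 =>
      decide ((dm M q0 (i : ℕ)).Halts (some .init, 0)))
    rw [ComputablePred.computable_iff]
    refine ⟨fun n => bif decide (g n < n1) then tab.getD (g n) false
      else f (inst M q0 (g n)).code, ?_, ?_⟩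
    · refine Computable.cond ?_ ?_ ?_
      · have h1 : Primrec (fun m : ℕ => decide (m < n1)) :=
          (Primrec.nat_lt.comp Primrec.id (Primrec.const n1)).decide
        exact h1.to_comp.comp hg
      · have h1 : Primrec (fun m : ℕ => tab.getD m false) :=
          (Primrec.list_getD false).comp (Primrec.const tab) Primrec.id
        exact h1.to_comp.comp hg
      · exact hf.comp ((code_computable M q0).comp hg)
    · funext n
      apply propext
      by_cases hlt : g n < n1
      · simp only [hlt, decide_true, cond_true]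
        rw [List.getD_eq_getElem _ _ (by simpa [tab] using hlt)]
        simp [tab]
      · simp only [hlt, decide_false, cond_false]
        rw [← inst_iff]
        symm
        apply hfS
        · exact mkSys_mono _ _ _
        · change Fintype.card (Option (Bool × Rg) ⊕ Bool) = 15
          simp
        · rfl
        · rfl
        · exact hn1 _ (not_lt.1 hlt)
  refine ⟨?_, key⟩
  obtain ⟨k, hk⟩ := key
  rintro ⟨f, hf, hfS⟩
  exact hk ⟨f, hf, fun S hS _ _ _ _ => hfS S hS⟩

end Pool.Agent.Results.MP_94d996_lc.EroderUndecidable
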